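import Mathlib
import Pool.Agent.Helper8.RM.Core
import Pool.Agent.Helper18.RM.Main

/-!
# MP_8b97a7_co: the limit of `rmin n / n` from the two reductions
-/

set_option autoImplicit false

namespace Pool.Agent.Helper44.RMC

open Finset Pool.Agent.Helper8.RM Pool.Agent.Helper18.RM

/-- Transport of a tight structure along an equivalence. -/
def mapTight {V W : Type} [Fintype V] [DecidableEq V] [Fintype W] [DecidableEq W] {m : ℕ}
    (e : V ≃ W) (T : Tight V m) : Tight W m where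
  O w := (T.O (e.symm w)).map e.toEmbedding
  mu w v := e (T.mu (e.symm w) (e.symm v))
  card_O w := by rw [card_map, T.card_O]
  mu_mem w v hv := by
    rw [mem_map_equiv] at hv ⊢
    rw [e.symm_apply_apply]
    exact T.mu_mem _ _ hv
  mu_ne w v hv := by
    rw [mem_map_equiv] at hv
    intro h
    exact T.mu_ne _ _ hv (by rw [← h, e.symm_apply_apply] at *; simpa using congrArg e.symm h)
  mu_mu w v hv := by
    rw [mem_map_equiv] at hv
    rw [e.symm_apply_apply, T.mu_mu _ _ hv, e.apply_symm_apply]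
  antisymm w v hv := by
    rw [mem_map_equiv] at hv ⊢
    exact T.antisymm _ _ hv
  triangle_free x y z := by
    simp only [mem_map_equiv]
    exact T.triangle_free _ _ _
  key y v x := by
    simp only [mem_map_equiv, e.symm_apply_apply]
    intro h1 h2 h3
    obtain ⟨h4, h5⟩ := T.key _ _ _ h1 h2 h3
    exact ⟨h4, by rw [h5]⟩

/-- The out-pairs of a tight structure on `14` points. -/
def fourteenP : Fin 14 → Fin 14 × Fin 14 :=
  ![(12, 13), (12, 13), (0, 4), (1, 5), (6, 11), (6, 11), (7, 10), (2, 3), (2, 5), (3, 4), (8, 9),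
    (12, 13), (7, 10), (8, 9)]

/-- A tight structure on `14` points with `m = 1`. -/
def fourteen : Tight (Fin 14) 1 where
  O x := {(fourteenP x).1, (fourteenP x).2}
  mu x v := if v = (fourteenP x).1 then (fourteenP x).2 else (fourteenP x).1
  card_O := by decide +kernel
  mu_mem := by decide +kernel
  mu_ne := by decide +kernel
  mu_mu := by decide +kernel
  antisymm := by decide +kernel
  triangle_free := by decide +kernel
  key := by decide +kernel

/-- The densities `m / k` of the tight structures. -/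
def dens : Set ℝ := {s : ℝ | ∃ k m : ℕ, 0 < k ∧ Nonempty (Tight (Fin k) m) ∧ s = m / k}

/-- The conclusion of the blow-up construction. -/
def Blowups : Prop := ∀ (k m q r : ℕ), 0 < k → 1 ≤ m → k + 7 ≤ q → Nonempty (Tight (Fin k) m) →
  ∃ A, IsMax23 (k * q + r) A ∧ IsReg (k * q + r) A (k * q + r - 1 - m * (q - 6)) ∧
    m * (q - 6) + 1 ≤ k * q + r

theorem fourteen_mem : (1 / 14 : ℝ) ∈ dens :=
  ⟨14, 1, by norm_num, ⟨fourteen⟩, by norm_num⟩

theorem dens_le {s : ℝ} (hs : s ∈ dens) : s ≤ 3 / 34 := by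
  obtain ⟨k, m, hk, ⟨T⟩, rfl⟩ := hs
  have : Nonempty (Fin k) := ⟨⟨0, hk⟩⟩
  have h1 := T.card_ge
  rw [Fintype.card_fin] at h1
  have h2 : (34 : ℝ) * m ≤ 3 * k := by exact_mod_cast h1
  have h3 : (0 : ℝ) < k := by exact_mod_cast hk
  rw [div_le_div_iff₀ h3 (by norm_num)]
  linarith

theorem bdd : BddAbove dens := ⟨3 / 34, fun _ hs => dens_le hs⟩

theorem fourteen_le : 1 / 14 ≤ sSup dens := le_csSup bdd fourteen_mem

/-- A tight structure on a nonempty subset of `Fin n`. -/
theorem card_le_of_tight {n m : ℕ} {W : Finset (Fin n)} (hW : W.Nonempty)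
    (T : Tight W m) : (m : ℝ) ≤ sSup dens * n := by
  classical
  have : Nonempty W := hW.to_subtype
  have hk : 0 < Fintype.card W := Fintype.card_pos
  have hc : Fintype.card W ≤ n := by
    rw [Fintype.card_coe]
    exact (Finset.card_le_univ W).trans (by simp)
  have hmem : (m : ℝ) / (Fintype.card W : ℝ) ∈ dens :=
    ⟨Fintype.card W, m, hk, ⟨mapTight (Fintype.equivFin W) T⟩, rfl⟩
  have h1 := le_csSup bdd hmem
  have h3 : (0 : ℝ) < (Fintype.card W : ℝ) := by exact_mod_cast hk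
  rw [div_le_iff₀ h3] at h1
  have h0 : 0 ≤ sSup dens := le_trans (by norm_num) fourteen_le
  have h4 : (Fintype.card W : ℝ) ≤ n := by exact_mod_cast hc
  exact h1.trans (mul_le_mul_of_nonneg_left h4 h0)

theorem lower (ε : ℝ) (hε : 0 < ε) : ∃ N₀ : ℕ, ∀ n ≥ N₀,
    (1 - sSup dens - ε) * n ≤ (rmin n : ℝ) := by
  obtain ⟨N₁, hN₁⟩ := tight_of_antichain (ε / 2) (by positivity)
  obtain ⟨N₂, hN₂⟩ := exists_nat_ge (2 / ε)
  refine ⟨max N₁ (max N₂ 3), fun n hn => ?_⟩
  have h1 : N₁ ≤ n := (le_max_left _ _).trans hn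
  have h2 : N₂ ≤ n := ((le_max_left _ _).trans (le_max_right _ _)).trans hn
  have h3 : 3 ≤ n := ((le_max_right _ _).trans (le_max_right _ _)).trans hn
  obtain ⟨A, hA, hr⟩ := rmin_mem h3
  have hn2 : 1 ≤ ε / 2 * n := by
    have h4 : 2 / ε ≤ (n : ℝ) := hN₂.trans (by exact_mod_cast h2)
    rw [div_le_iff₀ hε] at h4
    linarith
  by_cases hc : ε / 2 * n ≤ (n : ℝ) - 1 - rmin n
  · obtain ⟨W, m, hW, hm, ⟨T⟩⟩ := hN₁ n h1 A (rmin n) hA hr hc
    have h7 := card_le_of_tight hW T
    linarith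
  · push Not at hc
    have h0 : (0 : ℝ) ≤ n := Nat.cast_nonneg n
    have h5 : 0 ≤ sSup dens * n := mul_nonneg (le_trans (by norm_num) fourteen_le) h0
    linarith

theorem upper (hup : Blowups) (ε : ℝ) (hε : 0 < ε) : ∃ N₀ : ℕ, ∀ n ≥ N₀,
    (rmin n : ℝ) ≤ (1 - sSup dens + ε) * n := by
  have h14 := fourteen_le
  obtain ⟨s, hs, hlt⟩ := exists_lt_of_lt_csSup ⟨_, fourteen_mem⟩
    (show max (sSup dens - ε / 2) 0 < sSup dens from max_lt (by linarith) (by linarith))
  obtain ⟨k, m, hk, hT, rfl⟩ := hs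
  have hk' : (0 : ℝ) < k := by exact_mod_cast hk
  have hs1 : sSup dens - ε / 2 < m / k := (le_max_left _ _).trans_lt hlt
  have hs2 : (0 : ℝ) < m / k := (le_max_right _ _).trans_lt hlt
  have hm : 1 ≤ m := by
    rcases Nat.eq_zero_or_pos m with h | h
    · rw [h] at hs2; simp at hs2
    · exact h
  obtain ⟨N₂, hN₂⟩ := exists_nat_ge (7 * m / (ε / 2))
  refine ⟨max (k * (k + 7)) N₂, fun n hn => ?_⟩
  have h1 : k * (k + 7) ≤ n := (le_max_left _ _).trans hn
  have h2 : N₂ ≤ n := (le_max_right _ _).trans hn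
  have hq : k + 7 ≤ n / k := (Nat.le_div_iff_mul_le hk).2 (by rw [mul_comm]; exact h1)
  have hnr : k * (n / k) + n % k = n := Nat.div_add_mod n k
  obtain ⟨A, hA, hA2, hA3⟩ := hup k m (n / k) (n % k) hk hm hq hT
  have hmod : n % k < k := Nat.mod_lt _ hk
  generalize hqd : n / k = q at *
  generalize hrd : n % k = r at *
  subst hnr
  have h3 : rmin (k * q + r) ≤ k * q + r - 1 - m * (q - 6) := Nat.sInf_le ⟨A, hA, hA2⟩
  have h4 : rmin (k * q + r) + m * (q - 6) + 1 ≤ k * q + r := by omega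
  have hq6 : 6 ≤ q := by omega
  have h5 : (rmin (k * q + r) : ℝ) + m * ((q : ℝ) - 6) + 1 ≤ k * q + r := by
    have h6 : ((rmin (k * q + r) + m * (q - 6) + 1 : ℕ) : ℝ) ≤ ((k * q + r : ℕ) : ℝ) := by
      exact_mod_cast h4
    push_cast [Nat.cast_sub hq6] at h6
    exact h6
  have h6 : ((k * q + r : ℕ) : ℝ) = k * q + r := by push_cast; ring
  have h7 : 7 * (m : ℝ) ≤ ε / 2 * ((k * q + r : ℕ) : ℝ) := by
    have h8 : 7 * m / (ε / 2) ≤ ((k * q + r : ℕ) : ℝ) := hN₂.trans (by exact_mod_cast h2)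
    rw [div_le_iff₀ (by positivity)] at h8
    linarith
  have hr' : (r : ℝ) ≤ k := by exact_mod_cast hmod.le
  have h9 : (m : ℝ) / k * (k * q + r) ≤ m * q + m := by
    have h10 : (m : ℝ) / k * (k * q + r) = m * q + m / k * r := by field_simp
    have h11 : (m : ℝ) / k * r ≤ m / k * k := mul_le_mul_of_nonneg_left hr' hs2.le
    have h12 : (m : ℝ) / k * k = m := by field_simp
    linarith
  have h0 : (0 : ℝ) ≤ k * q + r := by positivity
  have h13 : (sSup dens - ε / 2) * (k * q + r) ≤ m / k * (k * q + r) :=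
    mul_le_mul_of_nonneg_right hs1.le h0
  rw [h6] at h7 ⊢
  linarith

/-- The limit of `rmin n / n`. -/
theorem tendsto_rmin (hup : Blowups) :
    Filter.Tendsto (fun n : ℕ => (rmin n : ℝ) / n) Filter.atTop (nhds (1 - sSup dens)) := by
  rw [Metric.tendsto_atTop]
  intro ε hε
  obtain ⟨N₁, h₁⟩ := lower (ε / 2) (by positivity)
  obtain ⟨N₂, h₂⟩ := upper hup (ε / 2) (by positivity)
  refine ⟨max (max N₁ N₂) 1, fun n hn => ?_⟩
  have a1 := h₁ n ((le_max_left _ _).trans ((le_max_left _ _).trans hn))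
  have a2 := h₂ n ((le_max_right _ _).trans ((le_max_left _ _).trans hn))
  have hn1 : 1 ≤ n := (le_max_right _ _).trans hn
  have hn0 : (0 : ℝ) < n := by exact_mod_cast hn1
  rw [Real.dist_eq, abs_lt]
  constructor
  · have : 1 - sSup dens - ε / 2 ≤ (rmin n : ℝ) / n := by rwa [le_div_iff₀ hn0]
    linarith
  · have : (rmin n : ℝ) / n ≤ 1 - sSup dens + ε / 2 := by rwa [div_le_iff₀ hn0]
    linarith

theorem sSup_eq_iff : sSup dens = 1 / 14 ↔
    ∀ k m : ℕ, 0 < k → Nonempty (Tight (Fin k) m) → 14 * m ≤ k := by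
  constructor
  · intro h k m hk hT
    have h1 : (m : ℝ) / k ≤ 1 / 14 := h ▸ le_csSup bdd ⟨k, m, hk, hT, rfl⟩
    have h3 : (0 : ℝ) < k := by exact_mod_cast hk
    rw [div_le_div_iff₀ h3 (by norm_num)] at h1
    have h2 : (14 : ℝ) * m ≤ k := by linarith
    exact_mod_cast h2
  · intro h
    refine le_antisymm (csSup_le ⟨_, fourteen_mem⟩ ?_) fourteen_le
    rintro s ⟨k, m, hk, hT, rfl⟩
    have h1 := h k m hk hT
    have h3 : (0 : ℝ) < k := by exact_mod_cast hk
    rw [div_le_div_iff₀ h3 (by norm_num)]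
    have h2 : (14 : ℝ) * m ≤ k := by exact_mod_cast h1
    linarith

/-- The conjecture `rmin n = (13/14 + o(1)) n` is a statement on finite tight structures. -/
theorem conjecture_iff (hup : Blowups) :
    (∀ ε : ℝ, 0 < ε → ∃ N₀ : ℕ, ∀ n ≥ N₀, |(rmin n : ℝ) - 13 / 14 * n| ≤ ε * n) ↔
      ∀ k m : ℕ, 0 < k → Nonempty (Tight (Fin k) m) → 14 * m ≤ k := by
  rw [← sSup_eq_iff]
  have hT := tendsto_rmin hup
  constructor
  · intro h
    have h1 : Filter.Tendsto (fun n : ℕ => (rmin n : ℝ) / n) Filter.atTop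
        (nhds (13 / 14 : ℝ)) := by
      rw [Metric.tendsto_atTop]
      intro ε hε
      obtain ⟨N₀, hN⟩ := h (ε / 2) (by positivity)
      refine ⟨max N₀ 1, fun n hn => ?_⟩
      have a1 := hN n ((le_max_left _ _).trans hn)
      have hn1 : 1 ≤ n := (le_max_right _ _).trans hn
      have hn0 : (0 : ℝ) < n := by exact_mod_cast hn1
      rw [Real.dist_eq]
      have h2 : (rmin n : ℝ) / n - 13 / 14 = ((rmin n : ℝ) - 13 / 14 * n) / n := by
        field_simp
      rw [h2, abs_div, abs_of_pos hn0, div_lt_iff₀ hn0]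
      have h3 : ε / 2 * n < ε * n := mul_lt_mul_of_pos_right (by linarith) hn0
      linarith
    have h2 := tendsto_nhds_unique hT h1
    linarith
  · intro h ε hε
    rw [h] at hT
    rw [Metric.tendsto_atTop] at hT
    obtain ⟨N₀, hN⟩ := hT ε hε
    refine ⟨max N₀ 1, fun n hn => ?_⟩
    have a1 := hN n ((le_max_left _ _).trans hn)
    have hn1 : 1 ≤ n := (le_max_right _ _).trans hn
    have hn0 : (0 : ℝ) < n := by exact_mod_cast hn1
    rw [Real.dist_eq] at a1
    have h2 : (rmin n : ℝ) / n - (1 - 1 / 14) = ((rmin n : ℝ) - 13 / 14 * n) / n := by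
      field_simp
      ring
    rw [h2, abs_div, abs_of_pos hn0, div_lt_iff₀ hn0] at a1
    exact a1.le

end Pool.Agent.Helper44.RMC
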