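import Pool.Agent.Helper44.RMC.Limit
import Pool.Agent.Helper8.RM.Upper

/-!
# MP_8b97a7_co: the limit of `rmin n / n` exists
-/

set_option autoImplicit false

namespace Pool.Agent.Helper44.RMC

open Finset Pool.Agent.Helper8.RM

theorem blowups : Blowups := fun k m q r hk hm hq h => antichain_of_tight k m q r hk hm hq h

/-- The limit of `rmin n / n` exists and equals `1 - sup m / k` over the tight structures on `k`
points with out-degree `2m`; and the conjecture `rmin n = (13/14 + o(1)) n` holds if and only if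
`14 m ≤ k` for every such structure. -/
theorem main :
    Filter.Tendsto (fun n : ℕ => (rmin n : ℝ) / n) Filter.atTop
      (nhds (1 - sSup {s : ℝ | ∃ k m : ℕ, 0 < k ∧ Nonempty (Tight (Fin k) m) ∧ s = m / k})) ∧
    ((∀ ε : ℝ, 0 < ε → ∃ N₀ : ℕ, ∀ n ≥ N₀, |(rmin n : ℝ) - 13 / 14 * n| ≤ ε * n) ↔
      ∀ k m : ℕ, 0 < k → Nonempty (Tight (Fin k) m) → 14 * m ≤ k) :=
  ⟨tendsto_rmin blowups, conjecture_iff blowups⟩

end Pool.Agent.Helper44.RMC
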